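import Pool.Agent.V8H38.SH.Defs
import Pool.Agent.V8H38.HZ.Tri
import Pool.Agent.V8H38.RM.Boost

/-!
# The three-valued evaluation above a fixed input has small monotone depth
-/

set_option linter.unusedSectionVars false

namespace Pool.Agent.V8H38.HZ

open Finset
open Pool.Agent.V8H38.RM (MDep)

variable {n : ℕ}

theorem depths_append (l : List (Gate n)) (g : Gate n) :
    depths (l ++ [g]) = depths l ++ [g.dep fun k => (depths l).getD k 0] := by
  unfold depths
  rw [List.foldl_append]
  rfl

theorem depths_length (l : List (Gate n)) : (depths l).length = l.length := by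
  induction l using List.reverseRecOn with
  | nil => rfl
  | append_singleton l g ih => rw [depths_append, List.length_append, List.length_append, ih]; rfl

theorem exists_pair (x : Fin n → Bool) (l : List (Gate n)) (k : ℕ) :
    ∃ F G : (Fin n → Bool) → Bool, MDep ((depths l).getD k 0) F ∧ MDep ((depths l).getD k 0) G ∧
      ∀ y, (∀ i, x i = true → y i = true) →
        F y = can1 ((vals3 (span x y) l).getD k (some false)) ∧
        G y = can0 ((vals3 (span x y) l).getD k (some false)) := by
  induction l using List.reverseRecOn generalizing k with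
  | nil =>
    exact ⟨fun _ => false, fun _ => true, MDep.const _ _, MDep.const _ _, fun y _ => ⟨rfl, rfl⟩⟩
  | append_singleton l g ih =>
    rcases lt_trichotomy k l.length with hk | hk | hk
    · rw [depths_append, List.getD_append _ _ _ _ (by rw [depths_length]; exact hk)]
      obtain ⟨F, G, h1, h2, h3⟩ := ih k
      refine ⟨F, G, h1, h2, fun y hy => ?_⟩
      rw [vals3_append, List.getD_append _ _ _ _ (by rw [vals3_length]; exact hk)]
      exact h3 y hy
    · choose F G h1 h2 h3 using ih
      have e1 : (depths (l ++ [g])).getD k 0 = g.dep fun k => (depths l).getD k 0 := by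
        rw [depths_append, List.getD_append_right _ _ _ _ (by rw [depths_length]; omega),
          depths_length, hk]
        simp
      have e2 : ∀ y, (vals3 (span x y) (l ++ [g])).getD k (some false) =
          g.eval3 (span x y) fun k => (vals3 (span x y) l).getD k (some false) := by
        intro y
        rw [vals3_append, List.getD_append_right _ _ _ _ (by rw [vals3_length]; omega),
          vals3_length, hk]
        simp
      simp only [e1, e2]
      cases g with
      | input i =>
        refine ⟨fun y => y i, fun _ => !x i, MDep.var _ _, MDep.const _ _, fun y hy => ?_⟩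
        simp only [Gate.eval3, span]
        have := hy i
        cases hx : x i <;> cases hy' : y i <;> simp [hx, hy', can1, can0] at this ⊢
      | const b =>
        refine ⟨fun _ => b, fun _ => !b, MDep.const _ _, MDep.const _ _, fun y hy => ?_⟩
        cases b <;> exact ⟨rfl, rfl⟩
      | neg a =>
        refine ⟨G a, F a, h2 a, h1 a, fun y hy => ?_⟩
        simp only [Gate.eval3]
        rw [can1_not, can0_not]
        exact ⟨(h3 a y hy).2, (h3 a y hy).1⟩
      | conj a b =>
        refine ⟨fun y => F a y && F b y, fun y => G a y || G b y,
          MDep.and ((h1 a).mono (le_max_left _ _)) ((h1 b).mono (le_max_right _ _)),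
          MDep.or ((h2 a).mono (le_max_left _ _)) ((h2 b).mono (le_max_right _ _)),
          fun y hy => ?_⟩
        simp only [Gate.eval3]
        rw [can1_and, can0_and, (h3 a y hy).1, (h3 b y hy).1, (h3 a y hy).2, (h3 b y hy).2]
        exact ⟨rfl, rfl⟩
      | disj a b =>
        refine ⟨fun y => F a y || F b y, fun y => G a y && G b y,
          MDep.or ((h1 a).mono (le_max_left _ _)) ((h1 b).mono (le_max_right _ _)),
          MDep.and ((h2 a).mono (le_max_left _ _)) ((h2 b).mono (le_max_right _ _)),
          fun y hy => ?_⟩
        simp only [Gate.eval3]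
        rw [can1_or, can0_or, (h3 a y hy).1, (h3 b y hy).1, (h3 a y hy).2, (h3 b y hy).2]
        exact ⟨rfl, rfl⟩
    · refine ⟨fun _ => false, fun _ => true, MDep.const _ _, MDep.const _ _, fun y _ => ?_⟩
      rw [List.getD_eq_default _ _ (by rw [vals3_length, List.length_append]; simpa using hk)]
      exact ⟨rfl, rfl⟩

/-- **The noticer.** -/
theorem notice_dep (C : Circ n) (x : Fin n → Bool) :
    ∃ H : (Fin n → Bool) → Bool, MDep C.depth H ∧
      ∀ y, (∀ i, x i = true → y i = true) → (H y = true ↔ C.eval3 (span x y) = none) := by
  obtain ⟨F, G, h1, h2, h3⟩ := exists_pair x C.gates C.out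
  cases hx : C.eval x
  · refine ⟨F, h1, fun y hy => ?_⟩
    have hc := eval_left C x y
    rw [(h3 y hy).1, none_iff]
    rw [hx] at hc
    unfold Circ.eval3 at hc ⊢
    rcases hc with hc | hc <;> rw [hc] <;> simp [can1, can0]
  · refine ⟨G, h2, fun y hy => ?_⟩
    have hc := eval_left C x y
    rw [(h3 y hy).2, none_iff]
    rw [hx] at hc
    unfold Circ.eval3 at hc ⊢
    rcases hc with hc | hc <;> rw [hc] <;> simp [can1, can0]

end Pool.Agent.V8H38.HZ
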