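import Pool.Agent.V8H38.RM.Chain
import Pool.Agent.V8H38.SH.Dep
import Pool.Agent.V8H38.HZ.Order

/-!
# Many copies: circuits with few unknown values against the OR of copies
-/

set_option linter.unusedSectionVars false

namespace Pool.Agent.V8H38.HZ

open Finset Function Pool.Agent.V8H38.RM

variable {ι X Y : Type} [Fintype X] [Fintype Y] {R n : ℕ}

open Classical in
/-- **Circuits with few unknown values against many copies.** -/
theorem chain_haz {u : X → ι → Bool} {v : Y → ι → Bool} {w : X × Y → ℝ} (hw0 : ∀ z, 0 ≤ w z)
    (hw1 : ∑ z, w z = 1) {ε : ℝ} {d' : ℕ}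
    (hε : ∀ f, MDep d' f → ∑ z : X × Y, w z * (gain f (u z.1) (v z.2) : ℝ) ≤ ε)
    {β : Fin R × ι → Fin n} (hβ : Injective β) (hR : 0 < R) (f : (Fin n → Bool) → Prop)
    (hf0 : ∀ s : Fin R → ι → Bool, (∀ i, (s i = fun _ => false) ∨ ∃ y, s i = v y) →
      ¬ f (place β s))
    (hf1 : ∀ (s : Fin R → ι → Bool) (j : Fin R) (x : X), s j = u x → f (place β s)) :
    ∃ (D : (Fin n → Bool) → ℝ) (Q : Equiv.Perm (Fin n) → ℝ), (∀ x, 0 ≤ D x) ∧ ∑ x, D x = 1 ∧
      (∀ π, 0 ≤ Q π) ∧ ∑ π, Q π = 1 ∧
      ∀ C : Circ n, C.depth ≤ d' → C.agree D f ≤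
        1 / 2 + (∑ π, Q π * (C.unknown Finset.univ (fun _ => false) π : ℝ)) / R + ε / 2 := by
  -- the two inputs of stage `j`
  set no' : (Fin R → X × Y) → Fin R → (Fin n → Bool) := fun ω j =>
    place β (base v ω (j.val + 1)) with hno
  set ys' : (Fin R → X × Y) → Fin R → (Fin n → Bool) := fun ω j =>
    place β (update (base v ω j.val) j (u (ω j).1)) with hys
  set D : (Fin n → Bool) → ℝ := fun x => ∑ j : Fin R, ∑ ω : Fin R → X × Y, pw w ω *
    (((if no' ω j = x then (1:ℝ) else 0) + (if ys' ω j = x then (1:ℝ) else 0)) / (2 * R)) with hD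
  have hRr : (0:ℝ) < R := by exact_mod_cast hR
  have hpw1 : ∑ ω : Fin R → X × Y, pw w ω = 1 := pw_sum hw1
  have avg : ∀ F : (Fin n → Bool) → ℝ, ∑ x, D x * F x =
      ∑ j : Fin R, ∑ ω : Fin R → X × Y, pw w ω * ((F (no' ω j) + F (ys' ω j)) / (2 * R)) := by
    intro F
    simp only [hD]
    simp_rw [Finset.sum_mul]
    rw [Finset.sum_comm]
    refine Finset.sum_congr rfl fun j _ => ?_
    rw [Finset.sum_comm]
    refine Finset.sum_congr rfl fun ω _ => ?_
    have e : ∀ x, pw w ω * (((if no' ω j = x then (1:ℝ) else 0) +
        (if ys' ω j = x then (1:ℝ) else 0)) / (2 * R)) * F x =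
        pw w ω / (2 * R) * ((if no' ω j = x then F x else 0) +
          (if ys' ω j = x then F x else 0)) := by
      intro x
      split_ifs <;> ring
    rw [Finset.sum_congr rfl fun x _ => e x, ← Finset.mul_sum, Finset.sum_add_distrib,
      Finset.sum_ite_eq, Finset.sum_ite_eq]
    simp only [Finset.mem_univ, if_true]
    ring
  obtain ⟨Q, hQ0, hQ1, hQ2⟩ := to_orders Finset.univ (fun _ => false) (pw w)
    (fun (ω : Fin R → X × Y) j => place β (base v ω j)) (fun ω => pw_nonneg hw0 ω) hpw1 (by
      intro ω j i hi
      refine place_mono hβ (s := base v ω j) ?_ i hi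
      intro k e hk
      unfold base at hk ⊢
      by_cases h : k.val < j
      · rw [if_pos h] at hk
        rw [if_pos (by omega)]
        exact hk
      · rw [if_neg h] at hk
        exact absurd hk (by decide)) (fun ω j a ha => absurd (Finset.mem_univ a) ha) R
  refine ⟨D, Q, ?_, ?_, hQ0, hQ1, ?_⟩
  · intro x
    refine Finset.sum_nonneg fun j _ => Finset.sum_nonneg fun ω _ =>
      mul_nonneg (pw_nonneg hw0 ω) ?_
    positivity
  · have := avg fun _ => 1
    simp only [mul_one] at this
    rw [this]
    have e : ∀ j : Fin R, ∑ ω : Fin R → X × Y, pw w ω * ((1 + 1) / (2 * (R:ℝ))) = 1 / R := by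
      intro j
      rw [← Finset.sum_mul, hpw1, one_mul]
      field_simp
      norm_num
    rw [Finset.sum_congr rfl fun j _ => e j, Finset.sum_const, Finset.card_univ, Fintype.card_fin,
      nsmul_eq_mul]
    field_simp
  · intro C hd
    -- noticer as a function of the base
    have hH' : ∀ σ : Fin R → ι → Bool, ∃ H : (Fin n → Bool) → Bool, MDep C.depth H ∧
      ∀ y, (∀ i, place β σ i = true → y i = true) →
        (H y = true ↔ C.eval3 (span (place β σ) y) = none) := fun σ =>
      notice_dep C (place β σ)
    choose H hHd hHn using hH'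
    set good : (Fin n → Bool) → ℝ := fun x => if (C.eval x = true ↔ f x) then 1 else 0 with hgood
    have hagree : C.agree D f = ∑ x, D x * good x := by
      unfold Circ.agree
      refine Finset.sum_congr rfl fun x _ => ?_
      simp only [hgood]
      split_ifs <;> simp
    rw [hagree, avg]
    -- stage by stage
    set a : (Fin R → X × Y) → Fin R → ℝ := fun ω j =>
      ((H (base v ω j.val) (no' ω j)).toNat : ℝ) with ha
    set b : (Fin R → X × Y) → Fin R → ℝ := fun ω j =>
      ((H (base v ω j.val) (ys' ω j)).toNat : ℝ) with hb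
    have hle_no : ∀ ω j i, place β (base v ω j.val) i = true → no' ω j i = true := by
      intro ω j i hi
      refine place_mono hβ (s := base v ω j.val) ?_ i hi
      intro k e hk
      unfold base at hk ⊢
      by_cases h : k.val < j.val
      · rw [if_pos h] at hk
        rw [if_pos (by omega)]
        exact hk
      · rw [if_neg h] at hk
        exact absurd hk (by decide)
    have hle_ys : ∀ ω j i, place β (base v ω j.val) i = true → ys' ω j i = true := by
      intro ω j i hi
      refine place_mono hβ (s := base v ω j.val) ?_ i hi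
      intro k e hk
      by_cases h : k = j
      · subst h
        unfold base at hk
        rw [if_neg (lt_irrefl _)] at hk
        exact absurd hk (by decide)
      · rw [update_of_ne h]
        exact hk
    have hfno : ∀ ω j, ¬ f (no' ω j) := by
      intro ω j
      refine hf0 _ fun i => ?_
      unfold base
      by_cases h : i.val < j.val + 1
      · rw [if_pos h]
        exact Or.inr ⟨_, rfl⟩
      · rw [if_neg h]
        exact Or.inl rfl
    have hfys : ∀ ω j, f (ys' ω j) := fun ω j => hf1 _ j (ω j).1 (update_self _ _ _)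
    have hpoint : ∀ ω j, good (no' ω j) + good (ys' ω j) ≤ 1 + a ω j + b ω j := by
      intro ω j
      have h0 : ∀ x, good x ≤ 1 := by
        intro x; simp only [hgood]; split_ifs <;> norm_num
      have ha0 : 0 ≤ a ω j := by simp only [ha]; positivity
      have hb0 : 0 ≤ b ω j := by simp only [hb]; positivity
      by_cases h1 : H (base v ω j.val) (no' ω j) = true
      · have : a ω j = 1 := by simp only [ha]; rw [h1]; simp
        have := h0 (no' ω j)
        have := h0 (ys' ω j)
        linarith
      by_cases h3 : H (base v ω j.val) (ys' ω j) = true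
      · have : b ω j = 1 := by simp only [hb]; rw [h3]; simp
        have := h0 (no' ω j)
        have := h0 (ys' ω j)
        linarith
      have h2 := eval_eq (fun h => h1 ((hHn (base v ω j.val) (no' ω j) (hle_no ω j)).2 h))
      have h4 := eval_eq (fun h => h3 ((hHn (base v ω j.val) (ys' ω j) (hle_ys ω j)).2 h))
      have hsum : good (no' ω j) + good (ys' ω j) ≤ 1 := by
        simp only [hgood]
        have e1 := hfno ω j
        have e2 := hfys ω j
        rw [h2] at h4
        cases hc : C.eval (no' ω j)
        · rw [hc] at h4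
          rw [← h4]
          simp [e1, e2]
        · rw [hc] at h4
          rw [← h4]
          simp [e1, e2]
      linarith
    -- the number of unknown values
    have hsteps : ∀ ω, ∑ j : Fin R, a ω j ≤
        (unknowns C (fun j => place β (base v ω j)) R : ℝ) := by
      intro ω
      set Z : ℕ → Fin n → Bool := fun j => place β (base v ω j) with hZ
      have hch : (unknowns C Z R : ℝ) =
          ∑ j ∈ range R, if C.eval3 (span (Z j) (Z (j + 1))) = none then (1:ℝ) else 0 := by
        unfold unknowns
        rw [Finset.card_filter]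
        push_cast
        refine Finset.sum_congr rfl fun j _ => ?_
        by_cases h : C.eval3 (span (Z j) (Z (j + 1))) = none
        · rw [if_pos h]
        · rw [if_neg h]
      rw [hch, Finset.sum_range (fun j =>
        if C.eval3 (span (Z j) (Z (j + 1))) = none then (1:ℝ) else 0)]
      refine Finset.sum_le_sum fun j _ => ?_
      have h1 := hHn (base v ω j.val) (no' ω j) (hle_no ω j)
      by_cases h : C.eval3 (span (Z j) (Z (j + 1))) = none
      · rw [if_pos h]
        simp only [ha]
        cases H (base v ω j.val) (no' ω j) <;> simp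
      · rw [if_neg h]
        have h2 : H (base v ω j.val) (no' ω j) = false := by
          rw [← Bool.not_eq_true]
          exact fun h3 => h (h1.1 h3)
        simp only [ha]
        rw [h2]
        simp
    -- yes-instances
    have hyes : ∀ j : Fin R, ∑ ω : Fin R → X × Y, pw w ω * (b ω j - a ω j) ≤ ε := by
      intro j
      rw [resample hw1 j]
      calc ∑ ω : Fin R → X × Y, pw w ω * ∑ z, w z * (b (update ω j z) j - a (update ω j z) j)
          ≤ ∑ ω : Fin R → X × Y, pw w ω * ε := by
            refine Finset.sum_le_sum fun ω _ => mul_le_mul_of_nonneg_left ?_ (pw_nonneg hw0 ω)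
            have h1 := hε (fun x => H (base v ω j.val) (place β (update (base v ω j.val) j x)))
              ((mdep_place hβ (base v ω j.val) j (hHd _)).mono hd)
            refine le_of_eq_of_le (Finset.sum_congr rfl fun z _ => ?_) h1
            congr 1
            simp only [ha, hb, gain, hno, hys]
            rw [base_succ, base_update, update_self]
            push_cast
            rfl
        _ = ε := by rw [← Finset.sum_mul, hpw1, one_mul]
    set B : ℝ := ∑ π, Q π * (C.unknown Finset.univ (fun _ => false) π : ℝ) with hB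
    have hall : ∑ j : Fin R, ∑ ω : Fin R → X × Y, pw w ω * (a ω j) ≤ B := by
      rw [Finset.sum_comm]
      calc ∑ ω : Fin R → X × Y, ∑ j : Fin R, pw w ω * (a ω j) =
            ∑ ω : Fin R → X × Y, pw w ω * ∑ j : Fin R, a ω j :=
            Finset.sum_congr rfl fun ω _ => by rw [Finset.mul_sum]
        _ ≤ ∑ ω : Fin R → X × Y, pw w ω *
              (unknowns C (fun j => place β (base v ω j)) R : ℝ) :=
            Finset.sum_le_sum fun ω _ => mul_le_mul_of_nonneg_left (hsteps ω) (pw_nonneg hw0 ω)
        _ ≤ B := hQ2 C
    have hbs : ∑ j : Fin R, ∑ ω : Fin R → X × Y, pw w ω * (b ω j) ≤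
        B + R * ε := by
      have h1 : ∑ j : Fin R, ∑ ω : Fin R → X × Y, pw w ω * (b ω j) =
          ∑ j : Fin R, ∑ ω : Fin R → X × Y, pw w ω * (b ω j - a ω j) +
          ∑ j : Fin R, ∑ ω : Fin R → X × Y, pw w ω * (a ω j) := by
        rw [← Finset.sum_add_distrib]
        refine Finset.sum_congr rfl fun j _ => ?_
        rw [← Finset.sum_add_distrib]
        exact Finset.sum_congr rfl fun ω _ => by ring
      have h2 : ∑ j : Fin R, ∑ ω : Fin R → X × Y, pw w ω * (b ω j - a ω j) ≤ R * ε := by
        calc _ ≤ ∑ j : Fin R, ε := Finset.sum_le_sum fun j _ => hyes j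
          _ = R * ε := by rw [Finset.sum_const, Finset.card_univ, Fintype.card_fin, nsmul_eq_mul]
      rw [h1]
      linarith
    calc ∑ j : Fin R, ∑ ω : Fin R → X × Y, pw w ω * ((good (no' ω j) + good (ys' ω j)) / (2 * R))
        ≤ ∑ j : Fin R, ∑ ω : Fin R → X × Y, pw w ω * ((1 + a ω j + b ω j) / (2 * R)) := by
          refine Finset.sum_le_sum fun j _ => Finset.sum_le_sum fun ω _ =>
            mul_le_mul_of_nonneg_left ?_ (pw_nonneg hw0 ω)
          exact div_le_div_of_nonneg_right (hpoint ω j) (by positivity)
      _ = (1 / (2 * R)) * (∑ j : Fin R, ∑ ω : Fin R → X × Y, pw w ω +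
            ∑ j : Fin R, ∑ ω : Fin R → X × Y, pw w ω * (a ω j) +
            ∑ j : Fin R, ∑ ω : Fin R → X × Y, pw w ω * (b ω j)) := by
          rw [← Finset.sum_add_distrib, ← Finset.sum_add_distrib, Finset.mul_sum]
          refine Finset.sum_congr rfl fun j _ => ?_
          rw [← Finset.sum_add_distrib, ← Finset.sum_add_distrib, Finset.mul_sum]
          exact Finset.sum_congr rfl fun ω _ => by ring
      _ ≤ (1 / (2 * R)) * (R + B + (B + R * ε)) := by
          refine mul_le_mul_of_nonneg_left ?_ (by positivity)
          have : ∑ j : Fin R, ∑ ω : Fin R → X × Y, pw w ω = R := by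
            rw [Finset.sum_congr rfl fun j _ => hpw1]
            simp
          rw [this]
          linarith
      _ = 1 / 2 + B / R + ε / 2 := by
          field_simp
          ring

end Pool.Agent.V8H38.HZ
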