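import Pool.Agent.V8H38.HZ.Defs

/-!
# The depth of Boolean circuits
-/

namespace Pool.Agent.V8H38.HZ

variable {n : ℕ}

/-- The depth of a node, given the depths `v` of the nodes it reads: only AND gates and OR gates
count. -/
def Gate.dep (v : ℕ → ℕ) : Gate n → ℕ
  | Gate.neg a => v a
  | Gate.conj a b => max (v a) (v b) + 1
  | Gate.disj a b => max (v a) (v b) + 1
  | _ => 0

/-- The list of the depths of all nodes. -/
def depths (l : List (Gate n)) : List ℕ := l.foldl (fun v g => v ++ [g.dep fun k => v.getD k 0]) []

/-- The depth: the greatest number of AND gates and OR gates on a path to the output. -/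
def Circ.depth (C : Circ n) : ℕ := (depths C.gates).getD C.out 0

end Pool.Agent.V8H38.HZ
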